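import Pool.Agent.Helper2.SW.Res

/-! # Project SW, module Clo: closures -/

set_option autoImplicit false
set_option linter.unusedSectionVars false

namespace Pool.Agent.Helper2.SW

open Cardinal Set

section Clo

variable {C I J : Type} [Preorder C] [LinearOrder I] {T : Pat J} {Z : I → J → Set (Raw C I)}

theorem cl_closed (X : Set I) : Closed Z {s | Cl Z X s} := closed_cl Z X

theorem cl_min {X Y : Set I} (hY : Closed Z Y) (h : X ⊆ Y) : ∀ s, Cl Z X s → s ∈ Y :=
  fun _ hs => hY.cl_subset h hs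

theorem closed_Iio (hZ : ∀ s j, ∀ b ∈ Z s j, b.On (Iio s)) (s : I) : Closed Z (Iio s) :=
  fun t ht j b hb => (hZ t j b hb).mono (Iio_subset_Iio (le_of_lt ht))

theorem closed_union {X Y : Set I} (hX : Closed Z X) (hY : Closed Z Y) : Closed Z (X ∪ Y) :=
  hX.union hY

theorem cl_small [Countable J] {δ : Cardinal.{0}} (hδ : δ.IsRegular) (hδ' : ℵ₀ < δ)
    (hZ : ∀ s j, #(Z s j) < δ) {X : Set I} (hX : #X < δ) : #{s | Cl Z X s} < δ := by
  let F : Set I → Set I := fun A => A ∪ ⋃ s ∈ A, ⋃ j, ⋃ b ∈ Z s j, b.supp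
  have hF : ∀ A : Set I, #A < δ → #(F A) < δ := by
    intro A hA
    refine (mk_union_le _ _).trans_lt (add_lt_of_lt hδ.aleph0_le hA ?_)
    rw [card_biUnion_lt_iff_forall_of_isRegular hδ hA]
    intro s _
    rw [card_iUnion_lt_iff_forall_of_isRegular hδ (mk_le_aleph0.trans_lt hδ')]
    intro j
    rw [card_biUnion_lt_iff_forall_of_isRegular hδ (hZ s j)]
    intro b _
    exact (lt_aleph0_iff_finite.2 (Raw.supp_finite b)).trans hδ'
  let L : ℕ → Set I := fun n => F^[n] X
  have hL : ∀ n, #(L n) < δ := by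
    intro n
    induction n with
    | zero => exact hX
    | succ n ih =>
      have : L (n + 1) = F (L n) := Function.iterate_succ_apply' F n X
      rw [this]
      exact hF _ ih
  have hsub : {s | Cl Z X s} ⊆ ⋃ n, L n := by
    intro s hs
    induction hs with
    | base h => exact mem_iUnion.2 ⟨0, h⟩
    | @step s t j b _ hb ht ih =>
      obtain ⟨n, hn⟩ := mem_iUnion.1 ih
      refine mem_iUnion.2 ⟨n + 1, ?_⟩
      have : L (n + 1) = F (L n) := Function.iterate_succ_apply' F n X
      rw [this]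
      exact Or.inr (mem_biUnion hn (mem_iUnion.2 ⟨j, mem_biUnion hb ht⟩))
  refine (mk_le_mk_of_subset hsub).trans_lt ?_
  have := (card_iUnion_lt_iff_forall_of_isRegular (t := L) hδ (by rw [mk_nat]; exact hδ')).2 hL
  exact this

end Clo

end Pool.Agent.Helper2.SW
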