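import Pool.Agent.Helper95.SW.Root

/-! # Project SW, module Cnt: counting -/

set_option autoImplicit false

namespace Pool.Agent.Helper95.SW

open Cardinal Set Pool.Agent.Helper2.SW

section Fin

variable {δ : Cardinal.{0}} (hδ : ℵ₀ ≤ δ)

include hδ

theorem mk_fin {α : Type} (h : #α ≤ δ) : #(Finset α) ≤ δ := by
  classical
  refine (mk_le_of_surjective (f := fun l : List α => l.toFinset) fun s =>
    ⟨s.toList, s.toList_toFinset⟩).trans ?_
  exact (mk_list_le_max α).trans (max_le hδ h)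

theorem mk_pr {α β : Type} (h : #α ≤ δ) (h' : #β ≤ δ) : #(α × β) ≤ δ := by
  rw [mk_prod, lift_id, lift_id]
  exact (mul_le_mul' h h').trans (mul_eq_self hδ).le

theorem mk_cnt {α : Type} [Countable α] : #α ≤ δ := (mk_le_aleph0 (α := α)).trans hδ

theorem mk_dat {S : Type} (X : Set S) (hX : #X ≤ δ) : #{x : Dat S // ∀ s ∈ x.u, s ∈ X} ≤ δ := by
  classical
  have h1 : #(Finset (ℕ × ℕ) × ℕ × Finset X × Finset (X × ℕ × ℕ)) ≤ δ :=
    mk_pr hδ (mk_cnt hδ) (mk_pr hδ (mk_cnt hδ) (mk_pr hδ (mk_fin hδ hX)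
      (mk_fin hδ (mk_pr hδ hX (mk_cnt hδ)))))
  refine le_trans (mk_le_of_injective (f := fun x : {x : Dat S // ∀ s ∈ x.u, s ∈ X} =>
    (x.1.E, x.1.n, x.1.u.subtype (· ∈ X),
      ((x.1.u.subtype (· ∈ X)) ×ˢ Finset.range x.1.n).image fun q : X × ℕ =>
        (q.1, q.2, x.1.r q.1 q.2))) ?_) h1
  rintro ⟨x, hx⟩ ⟨y, hy⟩ h
  simp only [Prod.mk.injEq] at h
  obtain ⟨hE, hn, hu, hr⟩ := h
  have hu' : x.u = y.u := by
    ext s
    constructor
    · intro hs
      have : (⟨s, hx s hs⟩ : X) ∈ x.u.subtype (· ∈ X) := Finset.mem_subtype.2 hs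
      rw [hu] at this
      exact Finset.mem_subtype.1 this
    · intro hs
      have : (⟨s, hy s hs⟩ : X) ∈ y.u.subtype (· ∈ X) := Finset.mem_subtype.2 hs
      rw [← hu] at this
      exact Finset.mem_subtype.1 this
  refine Subtype.ext (Dat.ext hE hn hu' ?_)
  funext s k
  by_cases hs : s ∈ x.u ∧ k < x.n
  · have h2 : ((⟨s, hx s hs.1⟩ : X), k, x.r s k) ∈
        ((x.u.subtype (· ∈ X)) ×ˢ Finset.range x.n).image fun q : X × ℕ =>
        (q.1, q.2, x.r q.1 q.2) := by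
      refine Finset.mem_image.2 ⟨(⟨s, hx s hs.1⟩, k), ?_, rfl⟩
      exact Finset.mem_product.2 ⟨Finset.mem_subtype.2 hs.1, Finset.mem_range.2 hs.2⟩
    rw [hr] at h2
    obtain ⟨q, -, hq⟩ := Finset.mem_image.1 h2
    simp only [Prod.mk.injEq] at hq
    obtain ⟨hq1, hq2, hq3⟩ := hq
    rw [← hq3, hq1, hq2]
  · rw [x.out s k hs, y.out s k]
    rwa [← hu', ← hn]

end Fin

end Pool.Agent.Helper95.SW

namespace Pool.Agent.Helper2.SW

open Cardinal Set Pool.Agent.Helper95.SW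

theorem mk_small_subsets {δ : Cardinal.{0}} (hδ : IsInaccessible δ) (W : Type) (hW : #W ≤ δ) :
    #{A : Set W // #A < δ} ≤ δ := mk_small hδ W hW

/-- the conditions on a set of cardinality at most `δ` -/
theorem mk_raw_on {C S : Type} [Preorder C] {δ : Cardinal.{0}} (hδ : ℵ₀ ≤ δ) (hC : #C ≤ δ)
    (X : Set S) (hX : #X ≤ δ) : #{p : Raw C S // p.On X} ≤ δ := by
  classical
  have h1 : #(C × Finset (X × {x : Dat S // ∀ s ∈ x.u, s ∈ X})) ≤ δ :=
    mk_pr hδ hC (mk_fin hδ (mk_pr hδ hX (mk_dat hδ X hX)))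
  refine le_trans (mk_le_of_injective (f := fun p : {p : Raw C S // p.On X} =>
    (p.1.c, p.1.fin.toFinset.attach.image fun s =>
      ((⟨s.1, p.2.1 s.1 (p.1.fin.mem_toFinset.1 s.2)⟩ : X),
        (⟨p.1.f s.1, p.2.2 s.1⟩ : {x : Dat S // ∀ s ∈ x.u, s ∈ X})))) ?_) h1
  rintro ⟨p, hp⟩ ⟨q, hq⟩ h
  simp only [Prod.mk.injEq] at h
  obtain ⟨hc, hf⟩ := h
  have key : ∀ (p q : Raw C S) (hp : p.On X) (hq : q.On X),
      (p.fin.toFinset.attach.image fun s =>
        ((⟨s.1, hp.1 s.1 (p.fin.mem_toFinset.1 s.2)⟩ : X),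
        (⟨p.f s.1, hp.2 s.1⟩ : {x : Dat S // ∀ s ∈ x.u, s ∈ X}))) =
      (q.fin.toFinset.attach.image fun s =>
        ((⟨s.1, hq.1 s.1 (q.fin.mem_toFinset.1 s.2)⟩ : X),
        (⟨q.f s.1, hq.2 s.1⟩ : {x : Dat S // ∀ s ∈ x.u, s ∈ X}))) →
      ∀ s, p.f s ≠ Dat.emp → q.f s = p.f s := by
    intro p q hp hq h s hs
    have h2 : ((⟨s, hp.1 s hs⟩ : X), (⟨p.f s, hp.2 s⟩ : {x : Dat S // ∀ s ∈ x.u, s ∈ X})) ∈
        (p.fin.toFinset.attach.image fun s =>
        ((⟨s.1, hp.1 s.1 (p.fin.mem_toFinset.1 s.2)⟩ : X),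
        (⟨p.f s.1, hp.2 s.1⟩ : {x : Dat S // ∀ s ∈ x.u, s ∈ X}))) :=
      Finset.mem_image.2 ⟨⟨s, p.fin.mem_toFinset.2 hs⟩, Finset.mem_attach _ _, rfl⟩
    rw [h] at h2
    obtain ⟨t, -, ht⟩ := Finset.mem_image.1 h2
    simp only [Prod.mk.injEq, Subtype.mk.injEq] at ht
    rw [← ht.1]
    rw [ht.2]
    rw [ht.1]
  refine Subtype.ext (Raw.ext hc ?_)
  funext s
  by_cases hs : p.f s = Dat.emp
  · by_cases hs' : q.f s = Dat.emp
    · rw [hs, hs']
    · exact key q p hq hp hf.symm s hs'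
  · exact (key p q hp hq hf s hs).symm

theorem mk_raw {C S : Type} [Preorder C] {δ : Cardinal.{0}} (hδ : ℵ₀ ≤ δ) (hC : #C ≤ δ)
    (hS : #S ≤ δ) : #(Raw C S) ≤ δ := by
  refine le_trans (mk_le_of_injective (f := fun p : Raw C S =>
    (⟨p, fun _ _ => mem_univ _, fun _ _ _ => mem_univ _⟩ : {p : Raw C S // p.On univ})) ?_)
    (mk_raw_on hδ hC univ (by rwa [mk_univ]))
  intro p q h
  exact congrArg Subtype.val h

theorem succType_mk {δ : Cardinal.{0}} {I : Type} [LinearOrder I] (hδ : ℵ₀ ≤ δ)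
    (hI : IsSuccType δ I) : #I = Order.succ δ := by
  refine le_antisymm ?_ (Order.succ_le_of_lt (lt_mk hI))
  by_contra hcon
  rw [not_le] at hcon
  -- a subset of size succ δ of I is bounded or not
  obtain ⟨s, hs⟩ := le_mk_iff_exists_set.1 hcon.le
  have := hI.wf
  have h1 : Order.succ δ ≤ #(⋃ x ∈ s, Iio x) ∨ ∃ b, s ⊆ Iic b := by
    by_cases hb : ∃ b, s ⊆ Iic b
    · exact Or.inr hb
    · left
      have : (⋃ x ∈ s, Iio x) = Set.univ := by
        rw [eq_univ_iff_forall]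
        intro y
        by_contra hy
        refine hb ⟨y, fun x hx => ?_⟩
        rw [mem_Iic]
        by_contra hxy
        exact hy (mem_biUnion hx (not_le.1 hxy))
      rw [this, mk_univ]
      exact hcon.le
  rcases h1 with h1 | ⟨b, hb⟩
  · have h2 : (⋃ x ∈ s, Iio x) = Set.univ → #I ≤ Order.succ δ := by
      intro h
      rw [← mk_univ (α := I), ← h]
      refine (mk_biUnion_le _ s).trans ?_
      rw [hs]
      have hs' : ℵ₀ ≤ Order.succ δ := hδ.trans (Order.le_succ δ)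
      refine (mul_le_mul' le_rfl ?_).trans (mul_eq_self hs').le
      exact ciSup_le' fun x => (hI.small x.1).trans (Order.le_succ δ)
    by_cases h3 : (⋃ x ∈ s, Iio x) = Set.univ
    · exact absurd (h2 h3) (not_le.2 hcon)
    · obtain ⟨y, hy⟩ := (ne_univ_iff_exists_notMem _).1 h3
      have h4 : s ⊆ Iic y := fun x hx => by
        rw [mem_Iic]
        by_contra hxy
        exact hy (mem_biUnion hx (not_le.1 hxy))
      have h5 : #s ≤ δ := by
        refine (mk_le_mk_of_subset h4).trans ?_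
        have h6 : Iic y ⊆ insert y (Iio y) := by
          intro x hx
          rcases eq_or_lt_of_le hx with h | h
          · exact Or.inl h
          · exact Or.inr h
        refine (mk_le_mk_of_subset h6).trans ((mk_insert_le).trans ?_)
        exact (add_le_add (hI.small y) (one_le_aleph0.trans hδ)).trans (add_eq_self hδ).le
      rw [hs] at h5
      exact absurd (Order.lt_succ δ) (not_lt.2 h5)
  · have h5 : #s ≤ δ := by
      refine (mk_le_mk_of_subset hb).trans ?_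
      have h6 : Iic b ⊆ insert b (Iio b) := by
        intro x hx
        rcases eq_or_lt_of_le hx with h | h
        · exact Or.inl h
        · exact Or.inr h
      refine (mk_le_mk_of_subset h6).trans ((mk_insert_le).trans ?_)
      exact (add_le_add (hI.small b) (one_le_aleph0.trans hδ)).trans (add_eq_self hδ).le
    rw [hs] at h5
    exact absurd (Order.lt_succ δ) (not_lt.2 h5)

theorem isSuccType_ord {δ : Cardinal.{0}} (hδ : ℵ₀ ≤ δ) :
    IsSuccType δ (Order.succ δ).ord.ToType := by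
  have hK : #(Order.succ δ).ord.ToType = Order.succ δ := mk_ord_toType _
  refine ⟨inferInstance, fun b => ?_, fun s hs => ?_⟩
  · have := mk_Iio_lt b (by simp)
    rw [hK] at this
    exact Order.lt_succ_iff.1 this
  · by_contra hcon
    push Not at hcon
    have h1 : IsCofinal s := fun x => by
      obtain ⟨y, hy, hxy⟩ := hcon x
      exact ⟨y, hy, hxy⟩
    have h2 := Order.cof_le h1
    rw [Ordinal.cof_toType, (isRegular_succ hδ).cof_ord] at h2
    exact absurd (h2.trans hs) (not_le.2 (Order.lt_succ δ))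

end Pool.Agent.Helper2.SW
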