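import Pool.Agent.Helper2.SW.Perm
import Pool.Agent.Helper2.SW.Defs3
import Pool.Agent.Helper95.SW.Cnt

/-! # Project SW, module Copies: many isomorphic copies over a root -/

set_option autoImplicit false
set_option linter.unusedSectionVars false

namespace Pool.Agent.Helper95.SW

open Cardinal Set Pool.Agent.Helper2.SW

section Perm

variable {δ : Cardinal.{0}} {I : Type}

/-- An injective function on a small set extends to a permutation. -/
theorem exists_perm {D : Set I} (f : I → I) (hf : InjOn f D) (hI : ℵ₀ ≤ #I) (hD : #D < #I) :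
    ∃ σ : Equiv.Perm I, ∀ x ∈ D, σ x = f x := by
  classical
  have hinf : Infinite I := infinite_iff.2 hI
  have h1 : #(f '' D : Set I) < #I := mk_image_le.trans_lt hD
  have h2 : #(Dᶜ : Set I) = #((f '' D)ᶜ : Set I) := by
    rw [mk_compl_of_infinite D hD, mk_compl_of_infinite _ h1]
  obtain ⟨e2⟩ := Cardinal.eq.1 h2
  let e1 : D ≃ (f '' D : Set I) := Equiv.Set.imageOfInjOn f D hf
  refine ⟨(Equiv.Set.sumCompl D).symm.trans ((Equiv.sumCongr e1 e2).trans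
    (Equiv.Set.sumCompl (f '' D))), fun x hx => ?_⟩
  rw [Equiv.trans_apply, Equiv.trans_apply, Equiv.Set.sumCompl_symm_apply_of_mem hx]
  rfl

/-- A small set is carried to an initial segment by a permutation. -/
theorem exists_initial [LinearOrder I] (hδ : IsInaccessible δ) (hI : IsSuccType δ I) (X : Set I)
    (hX : #X < δ) :
    ∃ τ : Equiv.Perm I, (∀ x ∈ X, ∀ y ∈ X, x < y → τ x < τ y) ∧ IsLowerSet (τ '' X) := by
  classical
  have := hI.wf
  have hlt : δ < #I := lt_mk hI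
  rcases InitialSeg.total (α := X) (β := I) (· < ·) (· < ·) with f | g
  · let F : I → I := fun x => if h : x ∈ X then f ⟨x, h⟩ else x
    have hF : ∀ x (hx : x ∈ X), F x = f ⟨x, hx⟩ := fun x hx => dif_pos hx
    have hinj : InjOn F X := by
      intro x hx y hy h
      rw [hF x hx, hF y hy] at h
      have := f.injective h
      exact congrArg Subtype.val this
    obtain ⟨τ, hτ⟩ := exists_perm F hinj (hδ.aleph0_lt.le.trans hlt.le) (hX.trans hlt)
    refine ⟨τ, ?_, ?_⟩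
    · intro x hx y hy hxy
      rw [hτ x hx, hτ y hy, hF x hx, hF y hy]
      exact f.map_rel_iff.2 hxy
    · rintro _ b hb ⟨x, hx, rfl⟩
      rcases hb.lt_or_eq with hb | hb
      · rw [hτ x hx, hF x hx] at hb
        obtain ⟨⟨y, hy⟩, hyb⟩ := f.mem_range_of_rel hb
        refine ⟨y, hy, ?_⟩
        rw [hτ y hy, hF y hy, hyb]
      · exact ⟨x, hx, hb.symm⟩
  · exfalso
    have h1 : #I ≤ #X := mk_le_of_injective g.injective
    exact absurd (h1.trans_lt hX) (not_lt.2 hlt.le)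

/-- A bound of the small initial segments. -/
theorem exists_seg [LinearOrder I] (hI : IsSuccType δ I) :
    ∃ b : I, ∀ L : Set I, IsLowerSet L → #L < δ → L ⊆ Iio b := by
  obtain ⟨s, hs⟩ := le_mk_iff_exists_set.1 (lt_mk hI).le
  obtain ⟨b, hb⟩ := hI.bdd s hs.le
  refine ⟨b, fun L hL hL' x hx => ?_⟩
  rw [mem_Iio]
  by_contra hcon
  rw [not_lt] at hcon
  have h1 : s ⊆ L := fun y hy => hL ((hb y hy).le.trans hcon) hx
  have h2 := mk_le_mk_of_subset h1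
  rw [hs] at h2
  exact absurd hL' (not_lt.2 h2)

/-- Two collapses agree on a common initial segment. -/
theorem collapse_eq [LinearOrder I] [WellFoundedLT I] {X X' R : Set I} {τ τ' : Equiv.Perm I}
    (hR : R ⊆ X) (hR' : R ⊆ X') (hi : ∀ x ∈ R, ∀ y ∈ X, y < x → y ∈ R)
    (hi' : ∀ x ∈ R, ∀ y ∈ X', y < x → y ∈ R)
    (hτ : ∀ x ∈ X, ∀ y ∈ X, x < y → τ x < τ y) (hτ' : ∀ x ∈ X', ∀ y ∈ X', x < y → τ' x < τ' y)
    (he : τ '' X = τ' '' X') : ∀ x ∈ R, τ x = τ' x := by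
  intro x
  induction x using WellFoundedLT.induction with | ind x IH
  intro hx
  have h1 : τ x ∈ τ' '' X' := by rw [← he]; exact ⟨x, hR hx, rfl⟩
  obtain ⟨z, hz, hzx⟩ := h1
  rcases lt_trichotomy z x with h | h | h
  · have hzR := hi' x hx z hz h
    have h2 := IH z h hzR
    rw [← h2] at hzx
    exact absurd (τ.injective hzx) h.ne
  · rw [← hzx, h]
  · have h2 := hτ' x (hR' hx) z hz h
    have h3 : τ' x ∈ τ '' X := by rw [he]; exact ⟨x, hR' hx, rfl⟩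
    obtain ⟨w, hw, hwx⟩ := h3
    rw [hzx, ← hwx] at h2
    have h4 : w < x := by
      by_contra hcon
      rcases (not_lt.1 hcon).lt_or_eq with h5 | h5
      · exact absurd (hτ x (hR hx) w hw h5) (not_lt.2 h2.le)
      · rw [h5] at h2
        exact lt_irrefl _ h2
    have h5 := IH w h4 (hi x hx w hw h4)
    rw [hwx] at h5
    exact absurd (τ'.injective h5).symm h4.ne

end Perm

section Carry

variable {C I J : Type} [LinearOrder I] (Z : I → J → Set (Raw C I))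

/-- The template of a set and of a name. -/
def tmp (X : Set I) (c : ℕ → ℕ → Set (Raw C I)) (τ : Equiv.Perm I) :
    Set I × Set (I × J × Raw C I) × Set (ℕ × ℕ × Raw C I) :=
  (τ '' X, {q | ∃ s ∈ X, ∃ b ∈ Z s q.2.1, q.1 = τ s ∧ q.2.2 = b.perm τ},
    {q | ∃ b ∈ c q.1 q.2.1, q.2.2 = b.perm τ})

variable {Z} {X X' : Set I} {c c' : ℕ → ℕ → Set (Raw C I)} {τ τ' : Equiv.Perm I}

theorem carry_code (h : tmp Z X c τ = tmp Z X' c' τ') {s s' : I} (hs : s ∈ X)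
    (hss : τ s = τ' s') {j : J} {p : Raw C I} (hp : p ∈ Z s j) :
    p.perm (τ.trans τ'.symm) ∈ Z s' j := by
  have h1 : (τ s, j, p.perm τ) ∈ (tmp Z X c τ).2.1 := ⟨s, hs, p, hp, rfl, rfl⟩
  rw [h] at h1
  obtain ⟨s'', hs'', b, hb, h2, h3⟩ := h1
  simp only at hb h2 h3
  rw [hss] at h2
  have h4 := τ'.injective h2
  subst h4
  rw [← Raw.perm_perm, h3, Raw.perm_symm]
  exact hb

theorem carry_name (h : tmp Z X c τ = tmp Z X' c' τ') {k l : ℕ} {p : Raw C I} (hp : p ∈ c k l) :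
    p.perm (τ.trans τ'.symm) ∈ c' k l := by
  have h1 : (k, l, p.perm τ) ∈ (tmp Z X c τ).2.2 := ⟨p, hp, rfl⟩
  rw [h] at h1
  obtain ⟨b, hb, h3⟩ := h1
  simp only at hb h3
  rw [← Raw.perm_perm, h3, Raw.perm_symm]
  exact hb

theorem carry (h : tmp Z X c τ = tmp Z X' c' τ')
    (hτ : ∀ x ∈ X, ∀ y ∈ X, x < y → τ x < τ y) (hτ' : ∀ x ∈ X', ∀ y ∈ X', x < y → τ' x < τ' y)
    (hX : Closed Z X) (hX' : Closed Z X') (hc : ∀ k l, ∀ p ∈ c k l, p.On X)
    (hc' : ∀ k l, ∀ p ∈ c' k l, p.On X') {σ : Equiv.Perm I}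
    (hσ : ∀ x ∈ X, σ x = τ'.symm (τ x)) :
    (∀ x, x ∈ X ↔ σ x ∈ X') ∧ (∀ x ∈ X, ∀ y ∈ X, x < y → σ x < σ y) ∧
      (∀ s ∈ X, ∀ j p, p ∈ Z s j ↔ p.perm σ ∈ Z (σ s) j) ∧
      ∀ k l p, p ∈ c k l ↔ p.perm σ ∈ c' k l := by
  have he : τ '' X = τ' '' X' := congrArg Prod.fst h
  have h1 : ∀ x, x ∈ X → σ x ∈ X' := by
    intro x hx
    have h2 : τ x ∈ τ' '' X' := by rw [← he]; exact ⟨x, hx, rfl⟩
    obtain ⟨y, hy, hyx⟩ := h2
    rw [hσ x hx, ← hyx, Equiv.symm_apply_apply]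
    exact hy
  have h1' : ∀ y ∈ X', ∃ x ∈ X, σ x = y ∧ σ.symm y = τ.symm (τ' y) := by
    intro y hy
    have h2 : τ' y ∈ τ '' X := by rw [he]; exact ⟨y, hy, rfl⟩
    obtain ⟨x, hx, hxy⟩ := h2
    have h3 : σ x = y := by rw [hσ x hx, hxy, Equiv.symm_apply_apply]
    refine ⟨x, hx, h3, ?_⟩
    rw [← hxy, Equiv.symm_apply_apply, ← h3, Equiv.symm_apply_apply]
  have h2 : ∀ x, x ∈ X ↔ σ x ∈ X' := by
    intro x
    refine ⟨h1 x, fun hx => ?_⟩
    obtain ⟨z, hz, hzx, -⟩ := h1' _ hx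
    rw [← σ.injective hzx]
    exact hz
  have hcong : ∀ p : Raw C I, p.On X → p.perm σ = p.perm (τ.trans τ'.symm) := by
    intro p hp
    exact Raw.perm_congr hp fun x hx => by rw [hσ x hx]; rfl
  have hcong' : ∀ p : Raw C I, p.On X' → p.perm σ.symm = p.perm (τ'.trans τ.symm) := by
    intro p hp
    exact Raw.perm_congr hp fun y hy => by
      obtain ⟨-, -, -, h3⟩ := h1' y hy
      rw [h3]; rfl
  refine ⟨h2, ?_, ?_, ?_⟩
  · intro x hx y hy hxy
    have h3 := hτ x hx y hy hxy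
    have h4 : τ' (σ x) < τ' (σ y) := by
      rw [hσ x hx, hσ y hy, Equiv.apply_symm_apply, Equiv.apply_symm_apply]
      exact h3
    by_contra hcon
    rcases (not_lt.1 hcon).lt_or_eq with h5 | h5
    · exact absurd (hτ' _ (h1 y hy) _ (h1 x hx) h5) (not_lt.2 h4.le)
    · rw [h5] at h4
      exact lt_irrefl _ h4
  · intro s hs j p
    have hs' : τ s = τ' (σ s) := by rw [hσ s hs, Equiv.apply_symm_apply]
    constructor
    · intro hp
      rw [hcong p (hX s hs j p hp)]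
      exact carry_code h hs hs' hp
    · intro hp
      have h3 := carry_code h.symm (h1 s hs) hs'.symm hp
      rw [← hcong' _ (hX' _ (h1 s hs) j _ hp), Raw.perm_symm] at h3
      exact h3
  · intro k l p
    constructor
    · intro hp
      rw [hcong p (hc k l p hp)]
      exact carry_name h hp
    · intro hp
      have h3 := carry_name h.symm hp
      rw [← hcong' _ (hc' k l _ hp), Raw.perm_symm] at h3
      exact h3

end Carry

section Bound

variable {C I J : Type} [Preorder C] [LinearOrder I] [Countable J] {δ : Cardinal.{0}}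

/-- There are few templates. -/
theorem mk_tmp (hδ : IsInaccessible δ) (hI : IsSuccType δ I) (hC : #C ≤ δ)
    (Z : I → J → Set (Raw C I)) (hZ' : ∀ s j, #(Z s j) < δ) (X : I → Set I)
    (hX : ∀ ξ, #(X ξ) < δ) (hXc : ∀ ξ, Closed Z (X ξ))
    (c : I → ℕ → ℕ → Set (Raw C I)) (hc : ∀ ξ k l, #(c ξ k l) < δ)
    (hc' : ∀ ξ k l, ∀ p ∈ c ξ k l, p.On (X ξ)) (τ : I → Equiv.Perm I)
    (hτ : ∀ ξ, IsLowerSet (τ ξ '' X ξ)) :
    #(range fun ξ => tmp Z (X ξ) (c ξ) (τ ξ)) ≤ δ := by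
  have hδ0 : ℵ₀ ≤ δ := hδ.aleph0_lt.le
  obtain ⟨b, hb⟩ := exists_seg (δ := δ) hI
  have hbX : ∀ ξ, τ ξ '' X ξ ⊆ Iio b := fun ξ => hb _ (hτ ξ) (mk_image_le.trans_lt (hX ξ))
  have hon : ∀ ξ (p : Raw C I), p.On (X ξ) → (p.perm (τ ξ)).On (Iio b) := fun ξ p hp =>
    hp.perm fun x hx => hbX ξ ⟨x, hx, rfl⟩
  let V2 : Set (I × J × Raw C I) := {q | q.1 ∈ Iio b ∧ q.2.2.On (Iio b)}
  let V3 : Set (ℕ × ℕ × Raw C I) := {q | q.2.2.On (Iio b)}
  have hraw := mk_raw_on (C := C) hδ0 hC (Iio b) (hI.small b)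
  have hV2 : #V2 ≤ δ := by
    refine le_trans (mk_le_of_injective (f := fun q : V2 =>
      ((⟨q.1.1, q.2.1⟩ : Iio b), q.1.2.1, (⟨q.1.2.2, q.2.2⟩ : {p : Raw C I // p.On (Iio b)}))) ?_)
      (mk_pr hδ0 (hI.small b) (mk_pr hδ0 (mk_cnt hδ0) hraw))
    rintro ⟨⟨a1, a2, a3⟩, ha⟩ ⟨⟨b1, b2, b3⟩, hb⟩ h
    simp only [Prod.mk.injEq, Subtype.mk.injEq] at h
    simp [h]
  have hV3 : #V3 ≤ δ := by
    refine le_trans (mk_le_of_injective (f := fun q : V3 =>
      (q.1.1, q.1.2.1, (⟨q.1.2.2, q.2⟩ : {p : Raw C I // p.On (Iio b)}))) ?_)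
      (mk_pr hδ0 (mk_cnt hδ0) (mk_pr hδ0 (mk_cnt hδ0) hraw))
    rintro ⟨⟨a1, a2, a3⟩, ha⟩ ⟨⟨b1, b2, b3⟩, hb⟩ h
    simp only [Prod.mk.injEq, Subtype.mk.injEq] at h
    simp [h]
  have hr := hδ.isRegular
  have s2 : ∀ ξ, #(tmp Z (X ξ) (c ξ) (τ ξ)).2.1 < δ := by
    intro ξ
    have h1 : (tmp Z (X ξ) (c ξ) (τ ξ)).2.1 ⊆
        ⋃ s ∈ X ξ, ⋃ j, (fun b : Raw C I => (τ ξ s, j, b.perm (τ ξ))) '' Z s j := by
      rintro ⟨x, j, p⟩ ⟨s, hs, b, hb, h1, h2⟩
      simp only at hb h1 h2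
      exact mem_biUnion hs (mem_iUnion.2 ⟨j, ⟨b, hb, by rw [h1, h2]⟩⟩)
    refine (mk_le_mk_of_subset h1).trans_lt ?_
    rw [card_biUnion_lt_iff_forall_of_isRegular hr (hX ξ)]
    intro s _
    rw [card_iUnion_lt_iff_forall_of_isRegular hr (mk_le_aleph0.trans_lt hδ.aleph0_lt)]
    exact fun j => mk_image_le.trans_lt (hZ' s j)
  have s3 : ∀ ξ, #(tmp Z (X ξ) (c ξ) (τ ξ)).2.2 < δ := by
    intro ξ
    have h1 : (tmp Z (X ξ) (c ξ) (τ ξ)).2.2 ⊆
        ⋃ k, ⋃ l, (fun b : Raw C I => (k, l, b.perm (τ ξ))) '' c ξ k l := by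
      rintro ⟨k, l, p⟩ ⟨b, hb, h2⟩
      simp only at hb h2
      exact mem_iUnion.2 ⟨k, mem_iUnion.2 ⟨l, ⟨b, hb, by rw [h2]⟩⟩⟩
    refine (mk_le_mk_of_subset h1).trans_lt ?_
    rw [card_iUnion_lt_iff_forall_of_isRegular hr (mk_le_aleph0.trans_lt hδ.aleph0_lt)]
    intro k
    rw [card_iUnion_lt_iff_forall_of_isRegular hr (mk_le_aleph0.trans_lt hδ.aleph0_lt)]
    exact fun l => mk_image_le.trans_lt (hc ξ k l)
  refine le_trans (mk_le_of_injective (f := fun q : range fun ξ => tmp Z (X ξ) (c ξ) (τ ξ) =>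
    ((⟨q.1.1, ?_⟩ : {s : Set I // s ⊆ Iio b ∧ #s < δ}),
      (⟨q.1.2.1, ?_⟩ : {s : Set (I × J × Raw C I) // s ⊆ V2 ∧ #s < δ}),
      (⟨q.1.2.2, ?_⟩ : {s : Set (ℕ × ℕ × Raw C I) // s ⊆ V3 ∧ #s < δ}))) ?_)
    (mk_pr hδ0 (mk_small_sub hδ _ (hI.small b)) (mk_pr hδ0 (mk_small_sub hδ _ hV2)
      (mk_small_sub hδ _ hV3)))
  · obtain ⟨_, ξ, rfl⟩ := q
    exact ⟨hbX ξ, mk_image_le.trans_lt (hX ξ)⟩
  · obtain ⟨_, ξ, rfl⟩ := q
    refine ⟨?_, s2 ξ⟩
    rintro ⟨x, j, p⟩ ⟨s, hs, b', hb', h1, h2⟩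
    simp only at hb' h1 h2
    rw [h1, h2]
    exact ⟨hbX ξ ⟨s, hs, rfl⟩, hon ξ b' (hXc ξ s hs j b' hb')⟩
  · obtain ⟨_, ξ, rfl⟩ := q
    refine ⟨?_, s3 ξ⟩
    rintro ⟨k, l, p⟩ ⟨b', hb', h2⟩
    simp only at hb' h2
    rw [h2]
    exact hon ξ b' (hc' ξ k l b' hb')
  · rintro ⟨⟨a1, a2, a3⟩, ha⟩ ⟨⟨b1, b2, b3⟩, hb⟩ h
    simp only [Prod.mk.injEq, Subtype.mk.injEq] at h
    simp [h]

end Bound

end Pool.Agent.Helper95.SW

namespace Pool.Agent.Helper2.SW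

open Cardinal Set Pool.Agent.Helper95.SW

theorem exists_copies {C I J : Type} [Preorder C] [LinearOrder I] [Countable J]
    {δ : Cardinal.{0}} (hδ : IsInaccessible δ) (hI : IsSuccType δ I) (hC : #C ≤ δ)
    (Z : I → J → Set (Raw C I)) (hZ : ∀ s j, ∀ b ∈ Z s j, b.On (Iio s))
    (hZ' : ∀ s j, #(Z s j) < δ) (B : Set I) (X : I → Set I) (hX : ∀ ξ, #(X ξ) < δ)
    (hXc : ∀ ξ, Closed Z (X ξ)) (hB : ∀ ξ, B ⊆ X ξ)
    (c : I → ℕ → ℕ → Set (Raw C I)) (hc : ∀ ξ k l, #(c ξ k l) < δ)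
    (hc' : ∀ ξ k l, ∀ p ∈ c ξ k l, p.On (X ξ)) :
    ∃ (R : Set I) (Y : ℕ → Set I) (ξ : ℕ → I), StrictMono ξ ∧ (∀ a, X (ξ a) = R ∪ Y a) ∧
      B ⊆ R ∧ IsCopies Z R Y fun a => c (ξ a) := by
  classical
  have := hI.wf
  have hδI : δ < #I := lt_mk hI
  choose τ hτ1 hτ2 using fun ξ => exists_initial hδ hI (X ξ) (hX ξ)
  obtain ⟨A, θ, b, hA, hθ⟩ := exists_root hδ hI X hX (fun ξ => tmp Z (X ξ) (c ξ) (τ ξ))
    (mk_tmp hδ hI hC Z hZ' X hX hXc c hc hc' τ hτ2)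
  -- the sequence
  have hne : Nonempty I := ⟨b⟩
  have hBs : ∃ b', b ≤ b' ∧ B ⊆ Iio b' := by
    obtain ⟨b1, hb1⟩ := hI.bdd (insert b (X b)) (by
      refine (mk_insert_le).trans ?_
      exact (add_lt_of_lt hδ.aleph0_lt.le (hX b) (one_lt_aleph0.trans hδ.aleph0_lt)).le)
    exact ⟨b1, (hb1 b (mem_insert _ _)).le, fun x hx => hb1 x (mem_insert_of_mem _ (hB b hx))⟩
  obtain ⟨b', hbb', hBb'⟩ := hBs
  choose! nx hnx using hθ
  have hup : ∀ γ : I, ∃ γ', γ < γ' ∧ nx γ < γ' ∧ X (nx γ) ⊆ Iio γ' := by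
    intro γ
    obtain ⟨b1, hb1⟩ := hI.bdd (insert γ (insert (nx γ) (X (nx γ)))) (by
      refine (mk_insert_le).trans ?_
      refine (add_lt_of_lt hδ.aleph0_lt.le ?_ (one_lt_aleph0.trans hδ.aleph0_lt)).le
      refine (mk_insert_le).trans_lt ?_
      exact add_lt_of_lt hδ.aleph0_lt.le (hX _) (one_lt_aleph0.trans hδ.aleph0_lt))
    exact ⟨b1, hb1 _ (by simp), hb1 _ (by simp), fun x hx => hb1 x (by simp [hx])⟩
  choose up hup1 hup2 hup3 using hup
  let γ : ℕ → I := fun n => up^[n] b'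
  have hγs : ∀ n, γ (n + 1) = up (γ n) := fun n => Function.iterate_succ_apply' up n b'
  have hγm : StrictMono γ := strictMono_nat_of_lt_succ fun n => by
    rw [hγs]; exact hup1 _
  have hγb : ∀ n, b ≤ γ n := fun n => hbb'.trans (hγm.monotone (Nat.zero_le n))
  let ξ : ℕ → I := fun n => nx (γ n)
  have hξ1 : ∀ n, γ n ≤ ξ n := fun n => (hnx (γ n) (hγb n)).1
  have hξ2 : ∀ n, tmp Z (X (ξ n)) (c (ξ n)) (τ (ξ n)) = θ := fun n => (hnx (γ n) (hγb n)).2.1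
  have hξ3 : ∀ n, X (ξ n) ∩ Iio (γ n) = A := fun n => (hnx (γ n) (hγb n)).2.2
  have hξ4 : ∀ n, X (ξ n) ⊆ Iio (γ (n + 1)) := fun n => by rw [hγs]; exact hup3 _
  have hξm : StrictMono ξ := strictMono_nat_of_lt_succ fun n => by
    refine lt_of_lt_of_le ?_ (hξ1 (n + 1))
    rw [hγs]
    exact hup2 _
  have hAX : ∀ n, A ⊆ X (ξ n) := fun n => by
    rw [← hξ3 n]; exact inter_subset_left
  have hint : ∀ m n, m ≠ n → ∀ x, x ∈ X (ξ m) → x ∈ X (ξ n) → x ∈ A := by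
    have key : ∀ m n, m < n → ∀ x, x ∈ X (ξ m) → x ∈ X (ξ n) → x ∈ A := by
      intro m n hmn x hx hx'
      rw [← hξ3 n]
      exact ⟨hx', (mem_Iio.1 (hξ4 m hx)).trans_le (hγm.monotone hmn)⟩
    intro m n hmn x hx hx'
    rcases lt_or_gt_of_ne hmn with h | h
    · exact key m n h x hx hx'
    · exact key n m h x hx' hx
  have hini : ∀ n, ∀ x ∈ A, ∀ y ∈ X (ξ n), y < x → y ∈ A := by
    intro n x hx y hy hyx
    rw [← hξ3 n]
    have h1 : x < γ n := by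
      have := hx
      rw [← hξ3 n] at this
      exact this.2
    exact ⟨hy, hyx.trans h1⟩
  have hcol : ∀ m n, ∀ x ∈ A, τ (ξ m) x = τ (ξ n) x := fun m n =>
    collapse_eq (hAX m) (hAX n) (hini m) (hini n) (hτ1 _) (hτ1 _)
      (congrArg Prod.fst ((hξ2 m).trans (hξ2 n).symm))
  have hXY : ∀ a, X (ξ a) = A ∪ (X (ξ a) \ A) := fun a => by
    rw [union_sdiff_cancel (hAX a)]
  have hge : ∀ a, ∀ y ∈ X (ξ a) \ A, γ a ≤ y := by
    intro a y hy
    by_contra hcon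
    rw [not_le] at hcon
    exact hy.2 (by rw [← hξ3 a]; exact ⟨hy.1, hcon⟩)
  refine ⟨A, fun a => X (ξ a) \ A, ξ, hξm, hXY, ?_, ?_⟩
  · intro x hx
    rw [← hξ3 0]
    exact ⟨hB _ hx, hBb' hx⟩
  · refine ⟨?_, ?_, ?_, ?_, ?_, ?_⟩
    · have h1 : A = X (ξ 0) ∩ X (ξ 1) := by
        ext x
        exact ⟨fun hx => ⟨hAX 0 hx, hAX 1 hx⟩, fun hx => hint 0 1 (by norm_num) x hx.1 hx.2⟩
      rw [h1]
      exact (hXc _).inter (hXc _)
    · intro a
      rw [← hXY a]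
      exact hXc _
    · intro a x hx y hy
      exact (mem_Iio.1 (hA hx)).trans_le ((hγb a).trans (hge a y hy))
    · intro a b hab x hx y hy
      exact (mem_Iio.1 (hξ4 a hx.1)).trans_le ((hγm.monotone hab).trans (hge b y hy))
    · intro a k l p hp
      rw [← hXY a]
      exact hc' _ k l p hp
    · intro a b hab
      let f : I → I := fun x => if x ∈ X (ξ a) then (τ (ξ 0)).symm (τ (ξ a) x) else
        (τ (ξ 1)).symm (τ (ξ b) x)
      have hfa : ∀ x ∈ X (ξ a), f x = (τ (ξ 0)).symm (τ (ξ a) x) := fun x hx => if_pos hx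
      have hfA : ∀ x ∈ A, f x = x := fun x hx => by
        rw [hfa x (hAX a hx), hcol a 0 x hx, Equiv.symm_apply_apply]
      have hfb : ∀ x ∈ X (ξ b), f x = (τ (ξ 1)).symm (τ (ξ b) x) := by
        intro x hx
        by_cases hxa : x ∈ X (ξ a)
        · have hxA := hint a b hab x hxa hx
          rw [hfA x hxA, hcol b 1 x hxA, Equiv.symm_apply_apply]
        · exact if_neg hxa
      have himg : ∀ m n, ∀ x ∈ X (ξ m), (τ (ξ n)).symm (τ (ξ m) x) ∈ X (ξ n) := by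
        intro m n x hx
        have h1 : τ (ξ m) x ∈ τ (ξ n) '' X (ξ n) := by
          have h2 : τ (ξ m) '' X (ξ m) = τ (ξ n) '' X (ξ n) :=
            congrArg Prod.fst ((hξ2 m).trans (hξ2 n).symm)
          rw [← h2]
          exact ⟨x, hx, rfl⟩
        obtain ⟨y, hy, hyx⟩ := h1
        rw [← hyx, Equiv.symm_apply_apply]
        exact hy
      have hinj : InjOn f (X (ξ a) ∪ X (ξ b)) := by
        have key : ∀ x ∈ X (ξ a), ∀ y ∈ X (ξ b), y ∉ X (ξ a) → f x ≠ f y := by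
          intro x hx y hy hya h
          have h1 : f y ∈ X (ξ 0) := by
            rw [← h, hfa x hx]
            exact himg a 0 x hx
          have h2 : f y ∈ X (ξ 1) := by
            rw [hfb y hy]
            exact himg b 1 y hy
          have h3 := hint 0 1 (by norm_num) _ h1 h2
          have h4 := hcol b 1 _ h3
          have h5 : τ (ξ 1) (f y) = τ (ξ b) y := by rw [hfb y hy, Equiv.apply_symm_apply]
          rw [h5] at h4
          have h6 := (τ (ξ b)).injective h4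
          rw [h6] at h3
          exact hya (hAX a h3)
        intro x hx y hy h
        by_cases hxa : x ∈ X (ξ a)
        · by_cases hya : y ∈ X (ξ a)
          · rw [hfa x hxa, hfa y hya] at h
            exact (τ (ξ a)).injective ((τ (ξ 0)).symm.injective h)
          · exact absurd h (key x hxa y (hy.resolve_left hya) hya)
        · by_cases hya : y ∈ X (ξ a)
          · exact absurd h.symm (key y hya x (hx.resolve_left hxa) hxa)
          · rw [hfb x (hx.resolve_left hxa), hfb y (hy.resolve_left hya)] at h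
            exact (τ (ξ b)).injective ((τ (ξ 1)).symm.injective h)
      obtain ⟨σ, hσ⟩ := exists_perm f hinj (hδ.aleph0_lt.le.trans hδI.le)
        ((mk_union_le _ _).trans_lt ((add_lt_of_lt hδ.aleph0_lt.le (hX _) (hX _)).trans hδI))
      have hσA : ∀ x ∈ A, σ x = x := fun x hx => by
        rw [hσ x (Or.inl (hAX a hx)), hfA x hx]
      have hσA' : ∀ x, x ∈ A ↔ σ x ∈ A := by
        intro x
        refine ⟨fun hx => by rw [hσA x hx]; exact hx, fun hx => ?_⟩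
        have h1 := σ.injective (hσA _ hx)
        rw [h1] at hx
        exact hx
      obtain ⟨l1, l2, l3, l4⟩ := carry ((hξ2 a).trans (hξ2 0).symm) (hτ1 _) (hτ1 _) (hXc _) (hXc _)
        (hc' _) (hc' _) (σ := σ) (fun x hx => by rw [hσ x (Or.inl hx), hfa x hx])
      obtain ⟨r1, r2, r3, r4⟩ := carry ((hξ2 b).trans (hξ2 1).symm) (hτ1 _) (hτ1 _) (hXc _) (hXc _)
        (hc' _) (hc' _) (σ := σ) (fun x hx => by rw [hσ x (Or.inr hx), hfb x hx])
      refine ⟨σ, hσA, ?_, ?_, ?_, ?_, ?_, ?_, l4, r4⟩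
      · intro x
        exact and_congr (l1 x) (not_congr (hσA' x))
      · intro x
        exact and_congr (r1 x) (not_congr (hσA' x))
      · rw [← hXY a]; exact l2
      · rw [← hXY b]; exact r2
      · rw [← hXY a]; exact l3
      · rw [← hXY b]; exact r3

end Pool.Agent.Helper2.SW
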