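import Pool.Agent.Helper2.SW.Defs2

/-! # Project SW, module NA: small sets, roots, permutations -/

set_option autoImplicit false

namespace Pool.Agent.Helper95.SW

open Cardinal Set Pool.Agent.Helper2.SW

/-! ### Cardinals -/

section Card

variable {δ : Cardinal.{0}}

theorem mk_small (hδ : IsInaccessible δ) (W : Type) (hW : #W ≤ δ) :
    #{t : Set W // #t < δ} ≤ δ := by
  obtain ⟨f⟩ : #W ≤ #δ.out := by rw [mk_out]; exact hW
  have h1 : #{s : Set δ.out // #s < δ} = δ := by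
    have h := mk_subset_mk_lt_cof (α := δ.out) (by rw [mk_out]; exact hδ.isStrongPrelimit)
    rw [mk_out, hδ.isRegular.cof_ord] at h
    exact h
  refine le_trans (mk_le_of_injective
    (f := fun t : {t : Set W // #t < δ} => (⟨f '' t.1, ?_⟩ : {s : Set δ.out // #s < δ})) ?_) h1.le
  · rw [mk_image_eq f.injective]
    exact t.2
  · rintro ⟨s, hs⟩ ⟨t, ht⟩ h
    simp only [Subtype.mk.injEq] at h
    simpa [f.injective.image_injective.eq_iff] using h

theorem mk_small_sub (hδ : IsInaccessible δ) {α : Type} (V : Set α) (hV : #V ≤ δ) :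
    #{s : Set α // s ⊆ V ∧ #s < δ} ≤ δ := by
  refine le_trans ?_ (mk_small hδ V hV)
  refine mk_le_of_injective (f := fun t => ⟨{v : V | v.1 ∈ t.1}, ?_⟩) ?_
  · refine lt_of_le_of_lt ?_ t.2.2
    exact mk_le_of_injective (f := fun v => ⟨v.1.1, v.2⟩) fun v w h => by
      simp only [Subtype.mk.injEq] at h
      exact Subtype.ext (Subtype.ext h)
  · rintro ⟨s, hs1, hs2⟩ ⟨t, ht1, ht2⟩ h
    simp only [Subtype.mk.injEq] at h
    refine Subtype.ext ?_
    ext x
    constructor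
    · intro hx
      have : (⟨x, hs1 hx⟩ : V) ∈ {v : V | v.1 ∈ s} := hx
      rw [h] at this
      exact this
    · intro hx
      have : (⟨x, ht1 hx⟩ : V) ∈ {v : V | v.1 ∈ t} := hx
      rw [← h] at this
      exact this

theorem bdd_small (hδ : IsInaccessible δ) (s : Set δ.ord.ToType) (hs : #s < δ) :
    ∃ i, ∀ x ∈ s, x < i := by
  by_contra hcon
  push Not at hcon
  have h1 : IsCofinal s := fun x => by
    obtain ⟨y, hy, hxy⟩ := hcon x
    exact ⟨y, hy, hxy⟩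
  have h2 := Order.cof_le h1
  rw [Ordinal.cof_toType, hδ.isRegular.cof_ord] at h2
  exact absurd hs (not_lt.2 h2)

end Card

section Root

variable {δ : Cardinal.{0}} {I : Type} [LinearOrder I]

theorem small_le (hI : IsSuccType δ I) (V : Set I) (b : I) (hV : V ⊆ Iio b) : #V ≤ δ :=
  (mk_le_mk_of_subset hV).trans (hI.small b)

theorem lt_mk (hI : IsSuccType δ I) : δ < #I := by
  by_contra hcon
  rw [not_lt] at hcon
  obtain ⟨b, hb⟩ := hI.bdd univ (by rwa [mk_univ])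
  exact lt_irrefl _ (hb b (mem_univ _))

/-- The ladder. -/
theorem exists_ladder (hδ : IsInaccessible δ) (hI : IsSuccType δ I) (g : I → I) :
    ∃ c : I, (∀ x < c, ∃ y < c, x < y ∧ g y < c) ∧
      ∀ A : Set I, #A < δ → A ⊆ Iio c → ∃ y < c, g y < c ∧ A ⊆ Iio y := by
  classical
  have := hI.wf
  have hK : #δ.ord.ToType = δ := mk_ord_toType δ
  have hsm : ∀ i : δ.ord.ToType, #(Iio i) < δ := by
    intro i
    have := mk_Iio_lt i (by simp)
    rwa [hK] at this
  have step : ∀ (i : δ.ord.ToType) (h : ∀ j, j < i → I), ∃ b, ∀ j hj, h j hj < b ∧ g (h j hj) < b := by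
    intro i h
    obtain ⟨b, hb⟩ := hI.bdd (range (fun j : Iio i => h j.1 j.2) ∪
      range (fun j : Iio i => g (h j.1 j.2))) (by
        refine (mk_union_le _ _).trans ?_
        refine (add_lt_of_lt hδ.aleph0_lt.le (mk_range_le.trans_lt (hsm i))
          (mk_range_le.trans_lt (hsm i))).le)
    exact ⟨b, fun j hj => ⟨hb _ (Or.inl ⟨⟨j, hj⟩, rfl⟩), hb _ (Or.inr ⟨⟨j, hj⟩, rfl⟩)⟩⟩
  choose st hst using step
  let f : δ.ord.ToType → I := WellFounded.fix (wellFounded_lt (α := δ.ord.ToType)) fun i h => st i h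
  have hf : ∀ i, f i = st i fun j _ => f j := fun i => WellFounded.fix_eq _ _ i
  have hf1 : ∀ i j, j < i → f j < f i ∧ g (f j) < f i := by
    intro i j hj
    rw [hf i]
    exact hst i (fun j _ => f j) j hj
  have hmax : ∀ i : δ.ord.ToType, ∃ j, i < j := by
    intro i
    obtain ⟨j, hj⟩ := bdd_small hδ {i} (by rw [mk_singleton]; exact one_lt_aleph0.trans hδ.aleph0_lt)
    exact ⟨j, hj i rfl⟩
  have hne : {b : I | ∀ i, f i < b}.Nonempty := by
    obtain ⟨b, hb⟩ := hI.bdd (range f) (mk_range_le.trans hK.le)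
    exact ⟨b, fun i => hb _ ⟨i, rfl⟩⟩
  let c := WellFounded.min (wellFounded_lt (α := I)) _ hne
  have hc : ∀ i, f i < c := WellFounded.min_mem (wellFounded_lt (α := I)) _ hne
  have hc2 : ∀ x < c, ∃ i, x < f i := by
    intro x hx
    have := WellFounded.not_lt_min (wellFounded_lt (α := I)) (x := x) (s := {b : I | ∀ i, f i < b})
    by_contra hcon
    push Not at hcon
    refine this ?_ hx
    intro i
    obtain ⟨j, hj⟩ := hmax i
    exact (hf1 j i hj).1.trans_le (hcon j)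
  have hc3 : ∀ i, g (f i) < c := fun i => by
    obtain ⟨j, hj⟩ := hmax i
    exact (hf1 j i hj).2.trans (hc j)
  refine ⟨c, fun x hx => ?_, fun A hA hAc => ?_⟩
  · obtain ⟨i, hi⟩ := hc2 x hx
    exact ⟨f i, hc i, hi, hc3 i⟩
  · have : Nonempty δ.ord.ToType := by
      rw [← mk_ne_zero_iff, hK]
      exact hδ.ne_zero
    choose! e he using hc2
    obtain ⟨i, hi⟩ := bdd_small hδ (e '' A) (mk_image_le.trans_lt hA)
    refine ⟨f i, hc i, hc3 i, fun x hx => ?_⟩
    exact (he x (hAc hx)).trans (hf1 _ _ (hi _ ⟨x, hx, rfl⟩)).1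

/-- Roots. -/
theorem exists_root (hδ : IsInaccessible δ) (hI : IsSuccType δ I) (X : I → Set I)
    (hX : ∀ ξ, #(X ξ) < δ) {Θ : Type} (t : I → Θ) (hΘ : #(range t) ≤ δ) :
    ∃ (A : Set I) (θ : Θ) (b : I), A ⊆ Iio b ∧
      ∀ γ, b ≤ γ → ∃ ξ, γ ≤ ξ ∧ t ξ = θ ∧ X ξ ∩ Iio γ = A := by
  classical
  have := hI.wf
  by_contra hcon
  push Not at hcon
  have h1 : ∀ (A : Set I) (θ : Θ), ∃ γ, (∃ b, A ⊆ Iio b) → (A ⊆ Iio γ ∧
      ∀ ξ, γ ≤ ξ → t ξ = θ → X ξ ∩ Iio γ ≠ A) := by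
    intro A θ
    by_cases hA : ∃ b, A ⊆ Iio b
    · obtain ⟨b, hb⟩ := hA
      obtain ⟨γ, hγ, h⟩ := hcon A θ b hb
      exact ⟨γ, fun _ => ⟨hb.trans (Iio_subset_Iio hγ), h⟩⟩
    · have : Nonempty I := by
        by_contra hI'
        rw [not_nonempty_iff] at hI'
        obtain ⟨b, -⟩ := hI.bdd ∅ (by simp)
        exact hI'.false b
      exact ⟨Classical.arbitrary I, fun h => absurd h hA⟩
  choose G hG using h1
  have h2 : ∀ β : I, ∃ b, ∀ A : Set I, A ⊆ Iio β → #A < δ → ∀ θ ∈ range t, G A θ < b := by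
    intro β
    have hc : #(range fun p : {s : Set I // s ⊆ Iio β ∧ #s < δ} × range t => G p.1.1 p.2.1) ≤ δ := by
      refine mk_range_le.trans ?_
      rw [mk_prod, lift_id, lift_id]
      refine (mul_le_mul' (mk_small_sub hδ _ (hI.small β)) hΘ).trans ?_
      rw [mul_eq_self hδ.aleph0_lt.le]
    obtain ⟨b, hb⟩ := hI.bdd _ hc
    exact ⟨b, fun A hA hA' θ hθ => hb _ ⟨(⟨A, hA, hA'⟩, ⟨θ, hθ⟩), rfl⟩⟩
  choose g hg using h2
  obtain ⟨c, hc1, hc2⟩ := exists_ladder hδ hI g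
  obtain ⟨y, hy, hgy, hA⟩ := hc2 (X c ∩ Iio c)
    ((mk_le_mk_of_subset inter_subset_left).trans_lt (hX c)) inter_subset_right
  have hA' : #(X c ∩ Iio c : Set I) < δ := (mk_le_mk_of_subset inter_subset_left).trans_lt (hX c)
  have h3 := hG (X c ∩ Iio c) (t c) ⟨y, hA⟩
  have h4 : G (X c ∩ Iio c) (t c) < c := (hg y _ hA hA' _ ⟨c, rfl⟩).trans hgy
  refine h3.2 c h4.le rfl ?_
  ext x
  constructor
  · rintro ⟨hx1, hx2⟩
    exact ⟨hx1, hx2.trans h4⟩
  · rintro ⟨hx1, hx2⟩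
    exact ⟨hx1, h3.1 ⟨hx1, hx2⟩⟩

end Root

end Pool.Agent.Helper95.SW
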